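import Pool.Agent.helper58.CRO.SpecK

/-!
# cro:KDE
-/

set_option autoImplicit false

open scoped Manifold ContDiff Topology ENNReal
open MeasureTheory Set Bundle Filter

noncomputable section

namespace Pool.Agent.CRO

/-- the linear map `a ↦ a 0 • v + a 1 • g` -/
def KDE_C (v g : En 2) : En 2 →L[ℝ] En 2 :=
  (EuclideanSpace.proj 0 : En 2 →L[ℝ] ℝ).smulRight v + (EuclideanSpace.proj 1 : En 2 →L[ℝ] ℝ).smulRight g

theorem KDE_C_apply (v g a : En 2) : KDE_C v g a = a 0 • v + a 1 • g := rfl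

/-- block triangular maps -/
theorem KDE_det (v g q : En 2) (B : PS 2 →L[ℝ] PS 2)
    (hB : ∀ y : PS 2, B y = (y.1 0 • v + y.1 1 • g, y.2 + y.1 1 • q)) :
    B.det = v 0 * g 1 - v 1 * g 0 := by
  set b := (EuclideanSpace.basisFun (Fin 2) ℝ).toBasis with hb
  have h1 : LinearMap.toMatrix (b.prod b) (b.prod b) (B : PS 2 →ₗ[ℝ] PS 2) =
      Matrix.fromBlocks !![v 0, g 0; v 1, g 1] 0 !![0, q 0; 0, q 1] 1 := by
    ext i j
    rw [LinearMap.toMatrix_apply]
    rcases i with i | i <;> rcases j with j | j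
    · fin_cases i <;> fin_cases j <;> simp [hb, hB]
    · fin_cases i <;> fin_cases j <;> simp [hb, hB]
    · fin_cases i <;> fin_cases j <;> simp [hb, hB]
    · fin_cases i <;> fin_cases j <;> simp [hb, hB]
  have h2 : B.det = (LinearMap.toMatrix (b.prod b) (b.prod b) (B : PS 2 →ₗ[ℝ] PS 2)).det := by
    rw [LinearMap.det_toMatrix]
  rw [h2, h1, Matrix.det_fromBlocks_zero₁₂, Matrix.det_one, mul_one, Matrix.det_fin_two]
  simp
  ring

theorem KDE (h1 : KJD_stmt) (h2 : HVA_stmt) (h3 : DT1_stmt) (h4 : NRG_stmt) : KDE_stmt := by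
  intro r0 𝒢 L R e r1 H Φ hS z hz s t p' hs hw
  have hG := hS.fl
  have hn1 : ∀ y : PS 2, sp 𝒢 y < 1 → nrm2 𝒢 y < 1 := by
    intro y hy
    by_contra h
    push Not at h
    have h4 : 1 ≤ sp 𝒢 y := by
      unfold sp
      rw [Real.le_sqrt' one_pos]
      simpa using h
    exact absurd hy (not_lt.2 h4)
  have hz1 := hn1 z hz.2.2
  have hw1 := hn1 _ hw.2.2
  set w : PS 2 := ((Φ s z).1, p') with hwdef
  have hzs : (hvf H (Φ s z)).1 = 𝒢.G (Φ s z).1 (Φ s z).2 := by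
    refine (h2 2 r0 r1 𝒢 H Φ hG (Φ s z) ((hs s right_mem_uIcc).trans hS.Rr) ?_).1
    rw [h4 2 r0 r1 𝒢 H Φ hG z s hz1 fun u hu => (hs u hu).trans hS.Rr]
    linarith
  have hws : (hvf H w).1 = 𝒢.G (Φ s z).1 p' :=
    (h2 2 r0 r1 𝒢 H Φ hG w (hw.1.trans hS.Rr) (by linarith)).1
  -- the derivative along the flow
  have hcont : Continuous (hvf H) := by
    have h5 : Continuous (fderiv ℝ H) := hG.smoothH.continuous_fderiv (by simp)
    unfold hvf
    fun_prop
  have hfl : fderiv ℝ (Φ t) w (hvf H w) = hvf H (Φ t w) := by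
    have h5 : HasDerivAt (fun τ => Φ t (Φ τ w)) (fderiv ℝ (Φ t) w (hvf H w)) 0 := by
      have h6 := hG.ode w 0
      rw [hG.zero] at h6
      have h7 : HasFDerivAt (Φ t) (fderiv ℝ (Φ t) w) (Φ 0 w) := by
        rw [hG.zero]
        exact (hG.diff t w).hasFDerivAt
      exact h7.comp_hasDerivAt 0 h6
    have h8 : HasDerivAt (fun τ => Φ t (Φ τ w)) (hvf H (Φ t w)) 0 := by
      have h6 := hG.ode (Φ t w) 0
      rw [hG.zero] at h6
      have e1 : (fun τ => Φ t (Φ τ w)) = fun τ => Φ τ (Φ t w) := by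
        ext1 τ
        rw [← hG.add, ← hG.add, add_comm]
      rw [e1]
      exact h6
    exact h5.unique h8
  -- the linear map
  set v : En 2 := (hvf H (Φ s z)).1 with hv
  set p0 : PS 2 →L[ℝ] ℝ := (EuclideanSpace.proj 0 : En 2 →L[ℝ] ℝ).comp
    (ContinuousLinearMap.fst ℝ (En 2) (En 2)) with hp0
  set p1 : PS 2 →L[ℝ] ℝ := (EuclideanSpace.proj 1 : En 2 →L[ℝ] ℝ).comp
    (ContinuousLinearMap.fst ℝ (En 2) (En 2)) with hp1
  set B : PS 2 →L[ℝ] PS 2 := (p0.smulRight v).prod (ContinuousLinearMap.snd ℝ (En 2) (En 2)) +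
    p1.smulRight (hvf H w) with hB
  have hBa : ∀ y : PS 2, B y = (y.1 0 • v + y.1 1 • (hvf H w).1, y.2 + y.1 1 • (hvf H w).2) :=
    fun y => rfl
  refine ⟨(fderiv ℝ (Φ t) w).comp B, ?_, ?_⟩
  · have hJ := h1 (PS 2) (hvf H) Φ hcont hG.toIsC1Flow t w
    have hin : HasFDerivAt (fun q : PS 2 => ((q.1 1, ((Φ (q.1 0) z).1, q.2)) : ℝ × PS 2))
        (p1.prod ((p0.smulRight v).prod (ContinuousLinearMap.snd ℝ (En 2) (En 2))))
        (!₂[s, t], p') := by
      have ha : HasFDerivAt (fun q : PS 2 => q.1 1) p1 (!₂[s, t], p') := p1.hasFDerivAt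
      have hb : HasFDerivAt (fun q : PS 2 => q.1 0) p0 (!₂[s, t], p') := p0.hasFDerivAt
      have hc : HasFDerivAt (fun q : PS 2 => (Φ (q.1 0) z).1) (p0.smulRight v) (!₂[s, t], p') := by
        have h5 : HasDerivAt (fun τ => (Φ τ z).1) v s :=
          (ContinuousLinearMap.fst ℝ (En 2) (En 2)).hasFDerivAt.comp_hasDerivAt s (hG.ode z s)
        have h6 : HasDerivAt (fun τ => (Φ τ z).1) v (((!₂[s, t], p') : PS 2).1 0) := h5
        have h7 := h6.hasFDerivAt.comp (((!₂[s, t], p') : PS 2)) hb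
        have e1 : ((ContinuousLinearMap.toSpanSingleton ℝ v).comp p0) = p0.smulRight v := by
          ext y <;> simp
        rw [e1] at h7
        exact h7
      exact ha.prodMk (hc.prodMk hasFDerivAt_snd)
    have hJ' : HasFDerivAt (fun q : ℝ × PS 2 => Φ q.1 q.2)
        ((fderiv ℝ (Φ t) w).comp (ContinuousLinearMap.snd ℝ ℝ (PS 2)) +
          (ContinuousLinearMap.fst ℝ ℝ (PS 2)).smulRight (hvf H (Φ t w)))
        ((fun q : PS 2 => ((q.1 1, ((Φ (q.1 0) z).1, q.2)) : ℝ × PS 2)) (!₂[s, t], p')) := hJ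
    have hcomp := hJ'.comp (((!₂[s, t], p') : PS 2)) hin
    have e2 : (fderiv ℝ (Φ t) w).comp B =
        ((fderiv ℝ (Φ t) w).comp (ContinuousLinearMap.snd ℝ ℝ (PS 2)) +
          (ContinuousLinearMap.fst ℝ ℝ (PS 2)).smulRight (hvf H (Φ t w))).comp
        (p1.prod ((p0.smulRight v).prod (ContinuousLinearMap.snd ℝ (En 2) (En 2)))) := by
      apply ContinuousLinearMap.ext
      intro y
      show fderiv ℝ (Φ t) w (B y) = fderiv ℝ (Φ t) w (p0 y • v, y.2) + p1 y • hvf H (Φ t w)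
      rw [← hfl, ← map_smul, ← map_add]
      rfl
    rw [e2]
    exact hcomp
  · have h5 : ((fderiv ℝ (Φ t) w).comp B).det = (fderiv ℝ (Φ t) w).det * B.det :=
      LinearMap.det_comp _ _
    rw [h5, abs_mul, h3 2 _ (hG.symp_eq t w), one_mul, KDE_det v (hvf H w).1 (hvf H w).2 B hBa, hws, hzs]
    rfl

end Pool.Agent.CRO
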