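import Pool.Agent.helper58.CRO.SpecK

/-!
# cro:KFF
-/

set_option autoImplicit false

open scoped Manifold ContDiff Topology ENNReal
open MeasureTheory Set Bundle Filter

noncomputable section

namespace Pool.Agent.CRO

/-- `∫_{-π}^π |sin| = 4` -/
theorem KFF_sin : ∫ ψ in (-Real.pi)..Real.pi, |Real.sin ψ| = 4 := by
  have hc : Continuous fun ψ : ℝ => |Real.sin ψ| := Real.continuous_sin.abs
  rw [← intervalIntegral.integral_add_adjacent_intervals (b := 0) (hc.intervalIntegrable _ _)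
    (hc.intervalIntegrable _ _)]
  have h1 : ∫ ψ in (0 : ℝ)..Real.pi, |Real.sin ψ| = 2 := by
    have h0 : ∫ ψ in (0 : ℝ)..Real.pi, Real.sin ψ = 2 := by
      rw [integral_sin, Real.cos_zero, Real.cos_pi]
      norm_num
    rw [← h0]
    apply intervalIntegral.integral_congr
    intro ψ hψ
    rw [uIcc_of_le Real.pi_pos.le] at hψ
    exact abs_of_nonneg (Real.sin_nonneg_of_mem_Icc hψ)
  have h2 : ∫ ψ in (-Real.pi)..0, |Real.sin ψ| = 2 := by
    have h3 := intervalIntegral.integral_comp_neg (a := 0) (b := Real.pi) (fun ψ => |Real.sin ψ|)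
    rw [neg_zero] at h3
    rw [← h3, ← h1]
    apply intervalIntegral.integral_congr
    intro ψ _
    show |Real.sin (-ψ)| = |Real.sin ψ|
    rw [Real.sin_neg, abs_neg]
  rw [h1, h2]
  norm_num

/-- `∫_{-π}^π |a sin ψ - b cos ψ| dψ = 4 sqrt(a² + b²)` -/
theorem KFF_ab (a b : ℝ) :
    ∫ ψ in (-Real.pi)..Real.pi, |a * Real.sin ψ - b * Real.cos ψ| = 4 * Real.sqrt (a ^ 2 + b ^ 2) := by
  set z : ℂ := ⟨a, b⟩ with hz
  have hn : ‖z‖ = Real.sqrt (a ^ 2 + b ^ 2) := by
    rw [Complex.norm_def, Complex.normSq_apply]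
    congr 1
    show a * a + b * b = _
    ring
  have h1 : a = ‖z‖ * Real.cos z.arg := (Complex.norm_mul_cos_arg z).symm
  have h2 : b = ‖z‖ * Real.sin z.arg := (Complex.norm_mul_sin_arg z).symm
  have h3 : ∀ ψ : ℝ, |a * Real.sin ψ - b * Real.cos ψ| = ‖z‖ * |Real.sin (ψ - z.arg)| := by
    intro ψ
    rw [Real.sin_sub]
    have : a * Real.sin ψ - b * Real.cos ψ =
        ‖z‖ * (Real.sin ψ * Real.cos z.arg - Real.cos ψ * Real.sin z.arg) := by
      have e1 : a * Real.sin ψ = (‖z‖ * Real.cos z.arg) * Real.sin ψ := by rw [← h1]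
      have e2 : b * Real.cos ψ = (‖z‖ * Real.sin z.arg) * Real.cos ψ := by rw [← h2]
      rw [e1, e2]
      ring
    rw [this, abs_mul, abs_of_nonneg (norm_nonneg z)]
  simp only [h3]
  rw [intervalIntegral.integral_const_mul,
    intervalIntegral.integral_comp_sub_right (fun ψ => |Real.sin ψ|), ← hn]
  have hper : Function.Periodic (fun ψ : ℝ => |Real.sin ψ|) (2 * Real.pi) := by
    intro ψ
    show |Real.sin (ψ + 2 * Real.pi)| = |Real.sin ψ|
    rw [Real.sin_add_two_pi]
  have h4 := hper.intervalIntegral_add_eq (-Real.pi - z.arg) (-Real.pi)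
  have e3 : -Real.pi - z.arg + 2 * Real.pi = Real.pi - z.arg := by ring
  have e4 : -Real.pi + 2 * Real.pi = Real.pi := by ring
  rw [e3, e4] at h4
  rw [h4, KFF_sin]
  ring

/-- the integral over the annulus -/
theorem KFF_pol (e : ℝ) (he : 0 < e) (he1 : e < 1) (g : ℝ → ℝ) (hg : Continuous g) (hg0 : ∀ ψ, 0 ≤ g ψ)
    (A : ℝ) (hA : ∫ ψ in (-Real.pi)..Real.pi, g ψ = A) :
    ∫⁻ s in Ioo e 1, ∫⁻ ψ in Ioo (-Real.pi) Real.pi, ENNReal.ofReal s * ENNReal.ofReal (s * g ψ) =
      ENNReal.ofReal (c3 e * A) := by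
  have hpi : -Real.pi ≤ Real.pi := by linarith [Real.pi_pos]
  have h1 : ∫⁻ ψ in Ioo (-Real.pi) Real.pi, ENNReal.ofReal (g ψ) = ENNReal.ofReal A := by
    rw [← hA, intervalIntegral.integral_of_le hpi, integral_Ioc_eq_integral_Ioo,
      ofReal_integral_eq_lintegral_ofReal]
    · exact (hg.integrableOn_Icc).mono_set Ioo_subset_Icc_self
    · exact Eventually.of_forall fun ψ => hg0 ψ
  have h2 : ∀ s ∈ Ioo e 1, ∫⁻ ψ in Ioo (-Real.pi) Real.pi,
      ENNReal.ofReal s * ENNReal.ofReal (s * g ψ) = ENNReal.ofReal (s ^ 2) * ENNReal.ofReal A := by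
    intro s hs
    have hs0 : 0 ≤ s := he.le.trans hs.1.le
    have h3 : ∀ ψ, ENNReal.ofReal s * ENNReal.ofReal (s * g ψ) =
        ENNReal.ofReal (s ^ 2) * ENNReal.ofReal (g ψ) := by
      intro ψ
      rw [← ENNReal.ofReal_mul hs0, ← ENNReal.ofReal_mul (by positivity)]
      congr 1
      ring
    simp only [h3]
    rw [lintegral_const_mul _ (by fun_prop), h1]
  rw [setLIntegral_congr_fun measurableSet_Ioo h2, lintegral_mul_const _ (by fun_prop)]
  have h4 : ∫⁻ s in Ioo e 1, ENNReal.ofReal (s ^ 2) = ENNReal.ofReal (c3 e) := by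
    have h5 : ∫ s in e..1, s ^ 2 = c3 e := by
      rw [integral_pow]
      unfold c3
      norm_num
    rw [← h5, intervalIntegral.integral_of_le he1.le, integral_Ioc_eq_integral_Ioo,
      ofReal_integral_eq_lintegral_ofReal]
    · have hc : Continuous fun s : ℝ => s ^ 2 := by fun_prop
      exact (hc.integrableOn_Icc).mono_set Ioo_subset_Icc_self
    · exact Eventually.of_forall fun s => by positivity
  rw [h4, ← ENNReal.ofReal_mul]
  unfold c3
  have : e ^ 3 ≤ 1 := pow_le_one₀ he.le he1.le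
  have h6 : 0 ≤ 1 - e ^ 3 := by linarith
  positivity

theorem KFF (h1 : KT1_stmt) (h2 : KT2_stmt) : KFF_stmt := by
  intro r0 𝒢 x e hx hx0 he he1
  obtain ⟨hD, y, hy, hxy, hn, hcr⟩ := h1 r0 𝒢 x hx hx0
  set D : ℝ := (𝒢.G x).det with hDdef
  have hsD : 0 < Real.sqrt D := Real.sqrt_pos.2 hD
  have hyy : inner ℝ y y = (1 : ℝ) := by
    rw [real_inner_self_eq_norm_sq, hy]
    norm_num
  have hyx : inner ℝ y x = (0 : ℝ) := by
    rw [real_inner_comm]
    exact hxy
  have hxx : inner ℝ x x = ‖x‖ ^ 2 := real_inner_self_eq_norm_sq x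
  have ha : ∀ s ψ : ℝ, inner ℝ x ((s * Real.cos ψ / ‖x‖) • x + (s * Real.sin ψ / Real.sqrt D) • y) =
      s * Real.cos ψ * ‖x‖ := by
    intro s ψ
    rw [inner_add_right, inner_smul_right, inner_smul_right, hxx, hxy]
    field_simp
    ring
  have hb : ∀ s ψ : ℝ, inner ℝ y ((s * Real.cos ψ / ‖x‖) • x + (s * Real.sin ψ / Real.sqrt D) • y) =
      s * Real.sin ψ / Real.sqrt D := by
    intro s ψ
    rw [inner_add_right, inner_smul_right, inner_smul_right, hyy, hyx]
    ring
  refine ⟨?_, ?_⟩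
  · rw [h2 r0 𝒢 x y e hx hx0 he he1 hy hxy hn hD _ (by fun_prop)]
    have e1 : ∀ s ∈ Ioo e 1, ∫⁻ ψ in Ioo (-Real.pi) Real.pi, ENNReal.ofReal s *
        ENNReal.ofReal (|inner ℝ x ((s * Real.cos ψ / ‖x‖) • x + (s * Real.sin ψ / Real.sqrt D) • y)| / ‖x‖) =
        ∫⁻ ψ in Ioo (-Real.pi) Real.pi, ENNReal.ofReal s * ENNReal.ofReal (s * |Real.cos ψ|) := by
      intro s hs
      have hs0 : 0 ≤ s := he.le.trans hs.1.le
      congr 1
      ext ψ
      rw [ha, abs_mul, abs_mul, abs_of_nonneg hs0, abs_of_pos hx, mul_div_assoc, div_self hx.ne', mul_one]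
    rw [setLIntegral_congr_fun measurableSet_Ioo e1, KFF_pol e he he1 (fun ψ => |Real.cos ψ|)
      Real.continuous_cos.abs (fun ψ => abs_nonneg _) 4 ?_, ← ENNReal.ofReal_mul (by positivity)]
    · congr 1
      ring
    · have := KFF_ab 0 1
      simp only [zero_mul, one_mul, zero_sub, abs_neg] at this
      rw [this]
      norm_num
  · intro p
    have hmeas : Measurable fun p' : En 2 => ENNReal.ofReal (crs (𝒢.G x p) (𝒢.G x p')) := by
      have hc : Continuous fun p' : En 2 => crs (𝒢.G x p) (𝒢.G x p') := by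
        unfold crs
        have hG : Continuous fun p' : En 2 => 𝒢.G x p' := (𝒢.G x).continuous
        have h0 : Continuous fun p' : En 2 => (𝒢.G x p') 0 := by fun_prop
        have h1 : Continuous fun p' : En 2 => (𝒢.G x p') 1 := by fun_prop
        fun_prop
      exact hc.measurable.ennreal_ofReal
    rw [h2 r0 𝒢 x y e hx hx0 he he1 hy hxy hn hD _ hmeas]
    set α : ℝ := inner ℝ x p / ‖x‖ with hα
    set β : ℝ := inner ℝ y p with hβ
    have e1 : ∀ s ∈ Ioo e 1, ∫⁻ ψ in Ioo (-Real.pi) Real.pi, ENNReal.ofReal s *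
        ENNReal.ofReal (crs (𝒢.G x p) (𝒢.G x
          ((s * Real.cos ψ / ‖x‖) • x + (s * Real.sin ψ / Real.sqrt D) • y))) =
        ∫⁻ ψ in Ioo (-Real.pi) Real.pi, ENNReal.ofReal s *
          ENNReal.ofReal (s * (Real.sqrt D * |α * Real.sin ψ - Real.sqrt D * β * Real.cos ψ|)) := by
      intro s hs
      have hs0 : 0 ≤ s := he.le.trans hs.1.le
      congr 1
      ext ψ
      congr 2
      rw [hcr, ha, hb]
      have e2 : α * (s * Real.sin ψ / Real.sqrt D) - β * (s * Real.cos ψ * ‖x‖ / ‖x‖) =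
          (s / Real.sqrt D) * (α * Real.sin ψ - Real.sqrt D * β * Real.cos ψ) := by
        field_simp
      rw [e2, abs_mul, abs_of_nonneg (by positivity)]
      have e3 : D = Real.sqrt D * Real.sqrt D := (Real.mul_self_sqrt hD.le).symm
      calc D * (s / Real.sqrt D * |α * Real.sin ψ - Real.sqrt D * β * Real.cos ψ|)
          = (Real.sqrt D * Real.sqrt D) * (s / Real.sqrt D *
              |α * Real.sin ψ - Real.sqrt D * β * Real.cos ψ|) := by rw [← e3]
        _ = _ := by field_simp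
    have e4 : sp 𝒢 (x, p) = Real.sqrt (α ^ 2 + (Real.sqrt D * β) ^ 2) := by
      unfold sp
      rw [hn]
      congr 1
      rw [mul_pow, Real.sq_sqrt hD.le]
    rw [setLIntegral_congr_fun measurableSet_Ioo e1,
      KFF_pol e he he1 (fun ψ => Real.sqrt D * |α * Real.sin ψ - Real.sqrt D * β * Real.cos ψ|)
      (by fun_prop) (fun ψ => by positivity) (Real.sqrt D * (4 * sp 𝒢 (x, p))) ?_,
      ← ENNReal.ofReal_mul (by positivity)]
    · congr 1
      rw [← hDdef]
      field_simp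
    · rw [intervalIntegral.integral_const_mul, KFF_ab, e4]

end Pool.Agent.CRO
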