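import Pool.Agent.helper58.CRO.SpecK

/-!
# cro:KGN
-/

set_option autoImplicit false

open scoped Manifold ContDiff Topology ENNReal
open MeasureTheory Set Bundle Filter

noncomputable section

namespace Pool.Agent.CRO

universe u

theorem KGN_gvol_mono {n : ℕ} {M : Type u} [TopologicalSpace M] [ChartedSpace (En n) M]
    [IsManifold (𝓡 n) ∞ M] (g : RMetric n M) {A B : Set M} (hAB : A ⊆ B) : gvol g A ≤ gvol g B := by
  unfold gvol
  refine iSup_mono fun k => iSup_mono fun e => iSup_mono fun S => iSup_le fun h => ?_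
  exact le_iSup_of_le ⟨h.1, h.2.1, fun i => (h.2.2.1 i).trans (inter_subset_inter_left _ hAB), h.2.2.2⟩
    le_rfl

theorem KGN_gball_mono {n : ℕ} {M : Type u} [TopologicalSpace M] [ChartedSpace (En n) M]
    [IsManifold (𝓡 n) ∞ M] (g : RMetric n M) (m : M) {r r' : ℝ} (h : r' ≤ r) :
    gball g m r' ⊆ gball g m r := fun _ hx => lt_of_lt_of_le hx (ENNReal.ofReal_le_ofReal h)

theorem KGN (h1 : KFI_stmt) (h2 : NCH_stmt.{u}) (h3 : EXM_stmt.{u}) (h4 : GHL_stmt.{u})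
    (h5 : VOA_stmt.{u}) : KGN_stmt.{u} := by
  intro M _ _ _ _ _ _ g m r hr hinj
  have key : ∀ r' : ℝ, 0 < r' → r' < r →
      ENNReal.ofReal (8 / Real.pi * r' ^ 2) ≤ gvol g (gball g m r) := by
    intro r' hr' hlt
    have hlt2 : ENNReal.ofReal (2 * r') < injRad g :=
      lt_of_lt_of_le ((ENNReal.ofReal_lt_ofReal_iff (by linarith)).2 (by linarith)) hinj
    unfold injRad at hlt2
    rw [lt_iSup_iff] at hlt2
    obtain ⟨r2, hlt3⟩ := hlt2
    rw [lt_iSup_iff] at hlt3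
    obtain ⟨⟨hr2, hinj2⟩, hlt4⟩ := hlt3
    have h2r : 2 * r' < r2 := (ENNReal.ofReal_lt_ofReal_iff hr2).1 hlt4
    obtain ⟨χ, hχ, hχ1, hχ2, hχ3, hχ4, hχ5⟩ := hinj2 m
    have hnorm : IsNormalAt g χ m r2 := ⟨hχ, hχ1, hχ2, hχ3, hχ4, hχ5⟩
    obtain ⟨𝒢, hrep⟩ := h2 2 M g χ m r2 hr2 hnorm
    have hexp : HasExp 𝒢 r2 := h3 2 M g χ r2 r2 r2 𝒢 hχ hχ1 hrep le_rfl hinj2
    have hlen : HasLen 𝒢 r2 := h4 2 M g χ m r2 r2 r2 𝒢 hr2 hnorm hrep le_rfl hinj2
    have hcore := h1 r2 𝒢 r2 r' hexp hlen hr' (by linarith) h2r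
    have hvoa := h5 2 M g χ m r2 𝒢 hr2 hnorm hrep r' hr' (by linarith)
    calc ENNReal.ofReal (8 / Real.pi * r' ^ 2)
        ≤ ENNReal.ofReal (VV 𝒢 r') := ENNReal.ofReal_le_ofReal hcore
      _ ≤ gvol g (gball g m r') := hvoa
      _ ≤ gvol g (gball g m r) := KGN_gvol_mono g (KGN_gball_mono g m hlt.le)
  have hcont : Continuous (fun r' : ℝ => ENNReal.ofReal (8 / Real.pi * r' ^ 2)) := by
    refine ENNReal.continuous_ofReal.comp ?_
    exact continuous_const.mul (continuous_id.pow 2)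
  have htend : Filter.Tendsto (fun r' : ℝ => ENNReal.ofReal (8 / Real.pi * r' ^ 2)) (𝓝[<] r)
      (𝓝 (ENNReal.ofReal (8 / Real.pi * r ^ 2))) :=
    (hcont.tendsto r).mono_left nhdsWithin_le_nhds
  refine le_of_tendsto htend ?_
  filter_upwards [Ioo_mem_nhdsLT hr] with r' hr'
  exact key r' hr'.1 hr'.2

end Pool.Agent.CRO
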