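import Pool.Agent.helper58.CRO.SpecK

/-!
# cro:KJD
-/

set_option autoImplicit false

open scoped Manifold ContDiff Topology ENNReal
open MeasureTheory Set Bundle Filter

noncomputable section

namespace Pool.Agent.CRO

theorem KJD : KJD_stmt := by
  intro F _ _ _ f Φ hf hΦ t w
  have h := hasStrictFDerivAt_uncurry_coprod (𝕜 := ℝ) (u := (t, w)) (f := Φ)
    (f₁ := fun t w => (ContinuousLinearMap.id ℝ ℝ).smulRight (f (Φ t w)))
    (f₂ := fun t w => fderiv ℝ (Φ t) w)
    (Eventually.of_forall fun v => (hΦ.ode v.2 v.1).hasFDerivAt)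
    (Eventually.of_forall fun v => (hΦ.diff v.1 v.2).hasFDerivAt)
    ?_ hΦ.dcont.continuousAt
  · have h2 := h.hasFDerivAt
    have e : ((fderiv ℝ (Φ t) w).comp (ContinuousLinearMap.snd ℝ ℝ F) +
          (ContinuousLinearMap.fst ℝ ℝ F).smulRight (f (Φ t w))) =
        ContinuousLinearMap.coprod ((ContinuousLinearMap.id ℝ ℝ).smulRight (f (Φ t w)))
          (fderiv ℝ (Φ t) w) := by
      ext q <;> simp
    rw [e]
    exact h2
  · have h1 : Continuous fun q : ℝ × F => (ContinuousLinearMap.id ℝ ℝ).smulRight (f (Φ q.1 q.2)) := by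
      have h2 : Continuous fun q : ℝ × F => f (Φ q.1 q.2) := hf.comp hΦ.cont
      exact ((ContinuousLinearMap.smulRightL ℝ ℝ F (ContinuousLinearMap.id ℝ ℝ)).continuous).comp h2
    exact h1.continuousAt

end Pool.Agent.CRO
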