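import Pool.Agent.helper58.CRO.SpecK

/-!
# cro:KL2
-/

set_option autoImplicit false

open scoped Manifold ContDiff Topology ENNReal
open MeasureTheory Set Bundle Filter

noncomputable section

namespace Pool.Agent.CRO

/-- approximation by continuous functions, almost everywhere -/
theorem KL2_approx (κ : ℝ → ℝ) (hκ : Measurable κ) (h01 : ∀ u, 0 ≤ κ u ∧ κ u ≤ 1) :
    ∃ g : ℕ → ℝ → ℝ, (∀ n, Continuous (g n)) ∧ (∀ n u, 0 ≤ g n u ∧ g n u ≤ 1) ∧
      ∀ᵐ u ∂(volume : Measure ℝ), u ∈ uIoc 0 Real.pi → Tendsto (fun n => g n u) atTop (𝓝 (κ u)) := by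
  set μ : Measure ℝ := (volume : Measure ℝ).restrict (uIoc 0 Real.pi) with hμ
  have : IsFiniteMeasure μ := by
    constructor
    rw [hμ, Measure.restrict_apply_univ, uIoc_of_le Real.pi_pos.le, Real.volume_Ioc]
    exact ENNReal.ofReal_lt_top
  have hint : Integrable κ μ := by
    refine Integrable.mono' (integrable_const (1 : ℝ)) hκ.aestronglyMeasurable ?_
    refine Eventually.of_forall fun u => ?_
    rw [Real.norm_eq_abs, abs_of_nonneg (h01 u).1]
    exact (h01 u).2
  have h1 : ∀ n : ℕ, ∃ g : ℝ → ℝ, HasCompactSupport g ∧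
      ∫⁻ x, ‖κ x - g x‖ₑ ∂μ ≤ ((n : ℝ≥0∞) + 1)⁻¹ ∧ Continuous g ∧ Integrable g μ :=
    fun n => hint.exists_hasCompactSupport_lintegral_sub_le (by simp)
  choose g0 hg0 using h1
  set g : ℕ → ℝ → ℝ := fun n u => max 0 (min 1 (g0 n u)) with hg
  have hgc : ∀ n, Continuous (g n) := fun n =>
    continuous_const.max (continuous_const.min (hg0 n).2.2.1)
  have hg01 : ∀ n u, 0 ≤ g n u ∧ g n u ≤ 1 := fun n u =>
    ⟨le_max_left _ _, max_le zero_le_one (min_le_left _ _)⟩
  have hle : ∀ n u, |g n u - κ u| ≤ |κ u - g0 n u| := by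
    intro n u
    have e : κ u = max 0 (min 1 (κ u)) := by
      rw [min_eq_right (h01 u).2, max_eq_right (h01 u).1]
    have h2 : |max 0 (min 1 (g0 n u)) - max 0 (min 1 (κ u))| ≤ |min 1 (g0 n u) - min 1 (κ u)| := by
      have := abs_max_sub_max_le_abs (min 1 (g0 n u)) (min 1 (κ u)) 0
      rwa [max_comm, max_comm (min 1 (κ u))] at this
    have h3 : |min 1 (g0 n u) - min 1 (κ u)| ≤ |g0 n u - κ u| := by
      have := abs_min_sub_min_le_max 1 (g0 n u) 1 (κ u)
      simpa using this
    rw [abs_sub_comm (κ u)]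
    calc |g n u - κ u| = |max 0 (min 1 (g0 n u)) - max 0 (min 1 (κ u))| := by rw [← e]
      _ ≤ _ := h2.trans h3
  have hte : Tendsto (fun n => eLpNorm (g n - κ) 1 μ) atTop (𝓝 0) := by
    have h2 : ∀ n, eLpNorm (g n - κ) 1 μ ≤ ((n : ℝ≥0∞) + 1)⁻¹ := by
      intro n
      rw [eLpNorm_one_eq_lintegral_enorm]
      refine le_trans (lintegral_mono fun u => ?_) (hg0 n).2.1
      rw [Pi.sub_apply, Real.enorm_eq_ofReal_abs, Real.enorm_eq_ofReal_abs]
      exact ENNReal.ofReal_le_ofReal (hle n u)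
    refine tendsto_of_tendsto_of_tendsto_of_le_of_le tendsto_const_nhds ?_ (fun _ => bot_le) h2
    have h3 : Tendsto (fun n : ℕ => ((n + 1 : ℕ) : ℝ≥0∞)⁻¹) atTop (𝓝 0) :=
      (ENNReal.tendsto_inv_nat_nhds_zero).comp (tendsto_add_atTop_nat 1)
    simpa using h3
  have hm := tendstoInMeasure_of_tendsto_eLpNorm one_ne_zero
    (fun n => (hgc n).aestronglyMeasurable) hκ.aestronglyMeasurable hte
  obtain ⟨ns, -, hns⟩ := hm.exists_seq_tendsto_ae
  refine ⟨fun n => g (ns n), fun n => hgc _, fun n => hg01 _, ?_⟩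
  rw [hμ, ae_restrict_iff' measurableSet_uIoc] at hns
  exact hns

theorem KL2 (h1 : KL1_stmt) : KL2_stmt := by
  intro κ hκ h01
  obtain ⟨g, hgc, hg01, hlim⟩ := KL2_approx κ hκ h01
  have hA : Tendsto (fun n => ∫ u in (0 : ℝ)..Real.pi, g n u) atTop (𝓝 (∫ u in (0 : ℝ)..Real.pi, κ u)) := by
    apply intervalIntegral.tendsto_integral_filter_of_dominated_convergence (fun _ => (1 : ℝ))
    · exact Eventually.of_forall fun n => (hgc n).aestronglyMeasurable
    · refine Eventually.of_forall fun n => Eventually.of_forall fun u _ => ?_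
      rw [Real.norm_eq_abs, abs_of_nonneg (hg01 n u).1]
      exact (hg01 n u).2
    · exact intervalIntegrable_const
    · exact hlim
  have hbd : ∀ n u v, ‖g n u * g n v * |Real.sin (u - v)|‖ ≤ 1 := by
    intro n u v
    rw [Real.norm_eq_abs, abs_mul, abs_mul, abs_of_nonneg (hg01 n u).1, abs_of_nonneg (hg01 n v).1, abs_abs]
    have h2 := Real.abs_sin_le_one (u - v)
    have h3 := hg01 n u
    have h4 := hg01 n v
    have h5 : g n u * g n v ≤ 1 := mul_le_one₀ h3.2 h4.1 h4.2
    exact mul_le_one₀ h5 (abs_nonneg _) h2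
  have hB : Tendsto (fun n => ∫ u in (0 : ℝ)..Real.pi, ∫ v in (0 : ℝ)..Real.pi, g n u * g n v * |Real.sin (u - v)|)
      atTop (𝓝 (∫ u in (0 : ℝ)..Real.pi, ∫ v in (0 : ℝ)..Real.pi, κ u * κ v * |Real.sin (u - v)|)) := by
    apply intervalIntegral.tendsto_integral_filter_of_dominated_convergence (fun _ => (Real.pi : ℝ))
    · refine Eventually.of_forall fun n => Continuous.aestronglyMeasurable ?_
      apply intervalIntegral.continuous_parametric_intervalIntegral_of_continuous'
      have := hgc n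
      fun_prop
    · refine Eventually.of_forall fun n => Eventually.of_forall fun u _ => ?_
      have h2 := intervalIntegral.norm_integral_le_of_norm_le_const (a := 0) (b := Real.pi)
        (f := fun v => g n u * g n v * |Real.sin (u - v)|) (C := 1) (fun v _ => hbd n u v)
      rw [one_mul, sub_zero, abs_of_pos Real.pi_pos] at h2
      exact h2
    · exact intervalIntegrable_const
    · filter_upwards [hlim] with u hu huI
      apply intervalIntegral.tendsto_integral_filter_of_dominated_convergence (fun _ => (1 : ℝ))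
      · refine Eventually.of_forall fun n => Continuous.aestronglyMeasurable ?_
        have := hgc n
        fun_prop
      · exact Eventually.of_forall fun n => Eventually.of_forall fun v _ => hbd n u v
      · exact intervalIntegrable_const
      · filter_upwards [hlim] with v hv hvI
        exact ((hu huI).mul (hv hvI)).mul_const _
  have hC : Tendsto (fun n => 2 * ((∫ u in (0 : ℝ)..Real.pi, g n u) - Real.sin (∫ u in (0 : ℝ)..Real.pi, g n u)))
      atTop (𝓝 (2 * ((∫ u in (0 : ℝ)..Real.pi, κ u) - Real.sin (∫ u in (0 : ℝ)..Real.pi, κ u)))) :=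
    (hA.sub ((Real.continuous_sin.tendsto _).comp hA)).const_mul 2
  exact le_of_tendsto_of_tendsto' hC hB fun n => h1 (g n) (hgc n) (hg01 n)

end Pool.Agent.CRO
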