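import Pool.Agent.helper58.CRO.SpecK

/-!
# cro:KMB
-/

set_option autoImplicit false

open scoped Manifold ContDiff Topology ENNReal
open MeasureTheory Set Bundle Filter

noncomputable section

namespace Pool.Agent.CRO

/-- the radial component is at most the speed -/
theorem KMB_cs {n : ℕ} {r0 : ℝ} (𝒢 : NChart n r0) (x p : En n) (hx : 0 < ‖x‖) (hx0 : ‖x‖ < r0) :
    |inner ℝ x p| / ‖x‖ ≤ sp 𝒢 (x, p) := by
  obtain ⟨hsym, hpos⟩ := 𝒢.pos x hx0
  have hg := 𝒢.gauss x hx0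
  have hnn : ∀ v, 0 ≤ inner ℝ (𝒢.G x v) v := by
    intro v
    by_cases hv : v = 0
    · simp [hv]
    · exact (hpos v hv).le
  set a : ℝ := inner ℝ x p with ha
  have hxx : inner ℝ x x = ‖x‖ ^ 2 := real_inner_self_eq_norm_sq x
  have h1 := hnn (p - (a / ‖x‖ ^ 2) • x)
  have e1 : inner ℝ (𝒢.G x (p - (a / ‖x‖ ^ 2) • x)) (p - (a / ‖x‖ ^ 2) • x) =
      nrm2 𝒢 (x, p) - a ^ 2 / ‖x‖ ^ 2 := by
    rw [map_sub, map_smul, hg, inner_sub_left, inner_sub_right, inner_sub_right, inner_smul_left,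
      inner_smul_left, inner_smul_right, inner_smul_right, hsym p x, hg, hxx, real_inner_comm x p, ← ha]
    unfold nrm2
    simp only [conj_trivial]
    field_simp
    ring
  rw [e1] at h1
  unfold sp
  apply Real.le_sqrt_of_sq_le
  rw [div_pow, sq_abs]
  linarith

theorem KMB (h1 : KC2_stmt) (h2 : KFX_stmt) (h3 : KFF_stmt) (h4 : IWN_stmt) (h5 : INV_stmt)
    (h6 : IME_stmt) (h7 : ICP_stmt) (h8 : VVP_stmt) : KMB_stmt := by
  intro r0 𝒢 L R e r1 H Φ hS N hN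
  have _ := h8
  have hR := hS.Rpos
  have he := hS.epos
  have he1 := hS.elt
  have hRr0 : R < r0 := hS.Rr.trans hS.fl.r1lt
  have hNr : (3 : ℝ) ≤ N := by exact_mod_cast hN
  have hN0 : (0 : ℝ) < N := by linarith
  set h : ℝ := R / N with hh
  have hh0 : 0 < h := by positivity
  have hNh : N * h = R := by
    rw [hh]
    field_simp
  have hc3 : 0 ≤ c3 e := by
    unfold c3
    have : e ^ 3 ≤ 1 := pow_le_one₀ he.le he1.le
    have h6 : 0 ≤ 1 - e ^ 3 := by linarith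
    positivity
  obtain ⟨-, hSLo, -, -, hHit, hTT, -⟩ := h6 2 r0 𝒢 L R e r1 H Φ hS
  -- the weights
  set k : ℝ → PS 2 → ℝ := fun ρ => (Hit Φ R ρ).indicator (fun _ => 1) with hk
  have hk1 : ∀ ρ z, k ρ z ≤ 1 := by
    intro ρ z
    by_cases hz : z ∈ Hit Φ R ρ
    · simp [hk, hz]
    · simp [hk, hz]
  have hk0 : ∀ ρ z, 0 ≤ k ρ z := fun ρ z => indicator_nonneg (fun _ _ => zero_le_one) z
  have hK : ∀ ρ, KInv 𝒢 Φ e R (k ρ) := by
    intro ρ
    refine ⟨measurable_const.indicator (hHit ρ).measurableSet, hk0 ρ, hk1 ρ, ?_⟩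
    intro z hz u hu
    have h9 := (h5 2 r0 𝒢 L R e r1 H Φ hS z hz u hu).2.2.2.2 ρ
    by_cases hz' : z ∈ Hit Φ R ρ
    · simp only [hk]
      rw [indicator_of_mem hz', indicator_of_mem (h9.2 hz')]
    · simp only [hk]
      rw [indicator_of_notMem hz', indicator_of_notMem (fun h => hz' (h9.1 h))]
  have hkz : ∀ ρ, ∀ z ∈ SL 𝒢 e R, z ∉ Hit Φ R ρ → k ρ z = 0 := by
    intro ρ z _ hz
    simp [hk, hz]
  -- points near the centre
  have hin : ∀ ρ, ρ ≤ R → ∀ z : PS 2, ‖z.1‖ < ρ → k ρ z = 1 := by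
    intro ρ hρ z hz
    have h9 : z ∈ Hit Φ R ρ := by
      refine ⟨0, ?_, ?_⟩
      · intro s hs
        rw [uIcc_self, mem_singleton_iff] at hs
        rw [hs, hS.fl.zero]
        exact lt_of_lt_of_le hz hρ
      · rw [hS.fl.zero]
        exact hz
    simp [hk, h9]
  have hShl : ∀ ρa ρb : ℝ, MeasurableSet (Shl 𝒢 e ρa ρb ∩ SL 𝒢 e R) := by
    intro ρa ρb
    have e1 : Shl 𝒢 e ρa ρb ∩ SL 𝒢 e R = {z : PS 2 | ρa ≤ ‖z.1‖ ∧ ‖z.1‖ < ρb} ∩ SL 𝒢 e R := by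
      ext z
      constructor
      · rintro ⟨h9, h10⟩
        exact ⟨h9.1, h10⟩
      · rintro ⟨h9, h10⟩
        exact ⟨⟨h9, h10.2⟩, h10⟩
    rw [e1]
    refine MeasurableSet.inter ?_ hSLo.measurableSet
    exact (measurableSet_le measurable_const (continuous_fst.norm).measurable).inter
      (measurableSet_lt (continuous_fst.norm).measurable measurable_const)
  have hsub : ∀ ρa ρb : ℝ, ρb ≤ R → Shl 𝒢 e ρa ρb ⊆ SL 𝒢 e R := by
    intro ρa ρb hρ z hz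
    exact ⟨lt_of_lt_of_le hz.1.2 hρ, hz.2⟩
  have hShm : ∀ ρa ρb : ℝ, ρb ≤ R → MeasurableSet (Shl 𝒢 e ρa ρb) := by
    intro ρa ρb hρ
    have := hShl ρa ρb
    rwa [inter_eq_left.2 (hsub ρa ρb hρ)] at this
  -- the volume of a shell
  have hvol : ∀ ρa ρb : ℝ, 0 ≤ ρa → ρa < ρb → ρb ≤ R → volume (Shl 𝒢 e ρa ρb) ≠ ⊤ := by
    intro ρa ρb h9 h10 h11
    have h12 := (h7 2 r0 𝒢 e ρa ρb le_rfl he he1 h9 h10 (lt_of_le_of_lt h11 hRr0)).1
    show volume {z : PS 2 | (ρa ≤ ‖z.1‖ ∧ ‖z.1‖ < ρb) ∧ e < sp 𝒢 z ∧ sp 𝒢 z < 1} ≠ ⊤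
    rw [h12]
    exact ENNReal.ofReal_ne_top
  -- finiteness
  have hfin : ∀ ρ, 0 < ρ → ρ < R → mmk 𝒢 Φ e R (k ρ) ≠ ⊤ := by
    intro ρ hρ hρR
    have h9 := h2 r0 𝒢 L R e r1 H Φ hS (k ρ) (hK ρ) ρ ρ R hρ le_rfl hρR le_rfl (hkz ρ)
    have h10 : ∫⁻ z in Shl 𝒢 e ρ R, ENNReal.ofReal (k ρ z * |inner ℝ z.1 z.2| / ‖z.1‖) ≤
        volume (Shl 𝒢 e ρ R) := by
      rw [← setLIntegral_one]
      apply setLIntegral_mono' (hShm ρ R le_rfl)
      intro z hz
      rw [← ENNReal.ofReal_one]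
      apply ENNReal.ofReal_le_ofReal
      have h11 := KMB_cs 𝒢 z.1 z.2 (lt_of_lt_of_le hρ hz.1.1) (hz.1.2.trans hRr0)
      have h12 : |inner ℝ z.1 z.2| / ‖z.1‖ ≤ 1 := h11.trans hz.2.2.le
      rw [mul_div_assoc]
      exact mul_le_one₀ (hk1 ρ z) (by positivity) h12
    have h11 := h9.trans h10
    intro htop
    rw [htop, ENNReal.mul_top (by
      rw [ne_eq, ENNReal.ofReal_eq_zero, not_le]
      linarith), ENNReal.mul_top (by norm_num)] at h11
    exact hvol ρ R hρ.le hρR le_rfl (top_le_iff.1 h11)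
  have hjR : ∀ j : ℕ, j < N → (j : ℝ) * h < R := by
    intro j hj
    rw [← hNh]
    have : (j : ℝ) < N := by exact_mod_cast hj
    exact mul_lt_mul_of_pos_right this hh0
  refine ⟨fun j hj hjN => ⟨hK _, hfin _ ?_ (hjR j hjN)⟩, ?_⟩
  · have : (1 : ℝ) ≤ j := by exact_mod_cast hj
    positivity
  -- the bound
  set ρ' : ℝ := ((N : ℝ) - 1) * h with hρ'
  have hρ'h : h < ρ' := by
    rw [hρ']
    nlinarith
  have hρ'R : ρ' < R := by
    rw [hρ', ← hNh]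
    nlinarith
  have hhR : h < R := hρ'h.trans hρ'R
  have hC2 := h1 r0 𝒢 L R e r1 H Φ hS (k h) (k ρ') (hK h) (hK ρ')
  have hFX := h2 r0 𝒢 L R e r1 H Φ hS (k h) (hK h) h h ρ' hh0 le_rfl hρ'h hρ'R.le (hkz h)
  have hlow : ENNReal.ofReal (4 * c3 e) *
      ∫⁻ z in Shl 𝒢 e h ρ', ENNReal.ofReal (k h z * |inner ℝ z.1 z.2| / ‖z.1‖) ≤
      ∫⁻ z in SL 𝒢 e R, QQ 𝒢 e (k h) (k ρ') z := by
    refine le_trans ?_ (lintegral_mono_set (hsub h ρ' hρ'R.le))
    rw [← lintegral_const_mul' _ _ ENNReal.ofReal_ne_top]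
    apply setLIntegral_mono' (hShm h ρ' hρ'R.le)
    intro z hz
    have hz0 : 0 < ‖z.1‖ := lt_of_lt_of_le hh0 hz.1.1
    have hzr : ‖z.1‖ < r0 := hz.1.2.trans (hρ'R.trans hRr0)
    have h9 : QQ 𝒢 e (k h) (k ρ') z = ENNReal.ofReal (k h z) * ENNReal.ofReal (4 * c3 e * sp 𝒢 z) := by
      unfold QQ
      congr 1
      rw [← (h3 r0 𝒢 z.1 e hz0 hzr he he1).2 z.2]
      congr 1
      ext p'
      rw [hin ρ' hρ'R.le (z.1, p') hz.1.2, mul_one]
    rw [h9, ← ENNReal.ofReal_mul (by positivity), ← ENNReal.ofReal_mul (hk0 h z)]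
    apply ENNReal.ofReal_le_ofReal
    have h10 := KMB_cs 𝒢 z.1 z.2 hz0 hzr
    have h11 : k h z * (4 * c3 e) * (|inner ℝ z.1 z.2| / ‖z.1‖) ≤ k h z * (4 * c3 e) * sp 𝒢 z :=
      mul_le_mul_of_nonneg_left h10 (mul_nonneg (hk0 h z) (by positivity))
    calc 4 * c3 e * (k h z * |inner ℝ z.1 z.2| / ‖z.1‖)
        = k h z * (4 * c3 e) * (|inner ℝ z.1 z.2| / ‖z.1‖) := by ring
      _ ≤ k h z * (4 * c3 e) * sp 𝒢 z := h11
      _ = k h z * (4 * c3 e * sp 𝒢 z) := by ring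
  -- positivity
  have hpos : mmk 𝒢 Φ e R (k h) ≠ 0 := by
    have hmeas : Measurable fun z : PS 2 => ENNReal.ofReal (k h z) * (TT Φ R (fun _ => 1) z)⁻¹ :=
      ((hK h).meas.ennreal_ofReal).mul (hTT _ measurable_const).inv
    have h9 : 0 < mmk 𝒢 Φ e R (k h) := by
      unfold mmk
      rw [lintegral_pos_iff_support hmeas, Measure.restrict_apply' hSLo.measurableSet]
      have hU : IsOpen ({z : PS 2 | ‖z.1‖ < h} ∩ SL 𝒢 e R) :=
        (isOpen_lt continuous_fst.norm continuous_const).inter hSLo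
      have hne : ({z : PS 2 | ‖z.1‖ < h} ∩ SL 𝒢 e R).Nonempty := by
        set p : En 2 := EuclideanSpace.single 0 ((e + 1) / 2) with hp
        have hpn : ‖p‖ = (e + 1) / 2 := by
          rw [hp, EuclideanSpace.norm_single, Real.norm_eq_abs, abs_of_pos (by linarith)]
        have hsp : sp 𝒢 (0, p) = (e + 1) / 2 := by
          unfold sp nrm2
          show Real.sqrt (inner ℝ (𝒢.G 0 p) p) = (e + 1) / 2
          rw [𝒢.zero, ContinuousLinearMap.id_apply, real_inner_self_eq_norm_sq, Real.sqrt_sq (norm_nonneg _),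
            hpn]
        refine ⟨((0 : En 2), p), ?_, ?_, ?_, ?_⟩
        · show ‖(0 : En 2)‖ < h
          rw [norm_zero]
          exact hh0
        · show ‖(0 : En 2)‖ < R
          rw [norm_zero]
          exact hR
        · rw [hsp]
          linarith
        · rw [hsp]
          linarith
      refine lt_of_lt_of_le (hU.measure_pos volume hne) (measure_mono ?_)
      rintro z ⟨hz1, hz2⟩
      refine ⟨?_, hz2⟩
      rw [Function.mem_support, hin h hhR.le z hz1, ENNReal.ofReal_one, one_mul, ne_eq,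
        ENNReal.inv_eq_zero]
      obtain ⟨α, β, -, -, hst, -⟩ := h4 2 r0 𝒢 L R e r1 H Φ hS z hz2
      have e1 : {u | Stay Φ R z u} = Ioo α β := by
        ext u
        exact hst u
      unfold TT
      rw [e1]
      simp only [ENNReal.ofReal_one]
      rw [setLIntegral_one, Real.volume_Ioo]
      exact ENNReal.ofReal_ne_top
    exact h9.ne'
  have htop : mmk 𝒢 Φ e R (k h) ≠ ⊤ := hfin h hh0 hhR
  have hfinal : ENNReal.ofReal (c3 e * (8 * (R - 2 * h))) * mmk 𝒢 Φ e R (k h) ≤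
      mmk 𝒢 Φ e R (k ρ') * mmk 𝒢 Φ e R (k h) := by
    have e1 : ρ' - h = R - 2 * h := by
      rw [hρ', ← hNh]
      ring
    have e2 : ENNReal.ofReal (c3 e * (8 * (R - 2 * h))) =
        ENNReal.ofReal (4 * c3 e) * (2 * ENNReal.ofReal (R - 2 * h)) := by
      have e3 : (2 : ℝ≥0∞) = ENNReal.ofReal 2 := (ENNReal.ofReal_ofNat 2).symm
      rw [e3, ← ENNReal.ofReal_mul (by norm_num), ← ENNReal.ofReal_mul (by positivity)]
      congr 1
      ring
    calc ENNReal.ofReal (c3 e * (8 * (R - 2 * h))) * mmk 𝒢 Φ e R (k h)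
        = ENNReal.ofReal (4 * c3 e) * (2 * (ENNReal.ofReal (ρ' - h) * mmk 𝒢 Φ e R (k h))) := by
          rw [e1, e2]
          ring
      _ ≤ ENNReal.ofReal (4 * c3 e) *
          ∫⁻ z in Shl 𝒢 e h ρ', ENNReal.ofReal (k h z * |inner ℝ z.1 z.2| / ‖z.1‖) :=
          mul_le_mul_right hFX _
      _ ≤ _ := hlow
      _ ≤ _ := hC2
      _ = _ := mul_comm _ _
  exact (ENNReal.mul_le_mul_iff_left hpos htop).1 hfinal

end Pool.Agent.CRO
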