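import Pool.Agent.helper58.CRO.SpecK

/-!
# cro:KRV
-/

set_option autoImplicit false

open scoped Manifold ContDiff Topology ENNReal
open MeasureTheory Set Bundle Filter

noncomputable section

namespace Pool.Agent.CRO

/-- the reversal of the momentum -/
def KRV_i (n : ℕ) : PS n →L[ℝ] PS n :=
  (ContinuousLinearMap.fst ℝ (En n) (En n)).prod (-(ContinuousLinearMap.snd ℝ (En n) (En n)))

theorem KRV_i_apply {n : ℕ} (z : PS n) : KRV_i n z = (z.1, -z.2) := rfl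

theorem KRV_lip {n : ℕ} (H : PS n → ℝ) (hH : ContDiff ℝ ∞ H) (hc : HasCompactSupport H) :
    ∃ K, LipschitzWith K (hvf H) := by
  have h1 : ContDiff ℝ 1 (fderiv ℝ H) := (hH.fderiv_right (m := ∞) (by simp)).of_le (by simp)
  have h2 : HasCompactSupport (fderiv ℝ H) := hc.fderiv ℝ
  obtain ⟨K, hK⟩ := h1.lipschitzWith_of_hasCompactSupport h2 (by norm_num)
  refine ⟨K * (‖ContinuousLinearMap.inr ℝ (En n) (En n)‖₊ +
    ‖ContinuousLinearMap.inl ℝ (En n) (En n)‖₊), LipschitzWith.of_dist_le_mul fun z w => ?_⟩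
  have h3 : ∀ J : En n →L[ℝ] PS n, dist ((InnerProductSpace.toDual ℝ (En n)).symm
      ((fderiv ℝ H z).comp J)) ((InnerProductSpace.toDual ℝ (En n)).symm
      ((fderiv ℝ H w).comp J)) ≤ K * ‖J‖ * dist z w := by
    intro J
    rw [LinearIsometryEquiv.dist_map, dist_eq_norm, ← ContinuousLinearMap.sub_comp]
    refine (ContinuousLinearMap.opNorm_comp_le _ _).trans ?_
    have h4 := hK.dist_le_mul z w
    rw [dist_eq_norm] at h4
    calc ‖fderiv ℝ H z - fderiv ℝ H w‖ * ‖J‖ ≤ (K * dist z w) * ‖J‖ :=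
          mul_le_mul_of_nonneg_right h4 (norm_nonneg _)
      _ = K * ‖J‖ * dist z w := by ring
  have h5 := h3 (ContinuousLinearMap.inr ℝ (En n) (En n))
  have h6 := h3 (ContinuousLinearMap.inl ℝ (En n) (En n))
  have hd : 0 ≤ dist z w := dist_nonneg
  have hK0 : (0 : ℝ) ≤ K := K.2
  have hr : (0 : ℝ) ≤ ‖ContinuousLinearMap.inr ℝ (En n) (En n)‖ := norm_nonneg _
  have hl : (0 : ℝ) ≤ ‖ContinuousLinearMap.inl ℝ (En n) (En n)‖ := norm_nonneg _
  rw [NNReal.coe_mul, NNReal.coe_add, coe_nnnorm, coe_nnnorm, Prod.dist_eq]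
  apply max_le
  · refine h5.trans ?_
    apply mul_le_mul_of_nonneg_right _ hd
    apply mul_le_mul_of_nonneg_left _ hK0
    linarith
  · have e : dist (hvf H z).2 (hvf H w).2 = dist ((InnerProductSpace.toDual ℝ (En n)).symm
      ((fderiv ℝ H z).comp (ContinuousLinearMap.inl ℝ (En n) (En n))))
      ((InnerProductSpace.toDual ℝ (En n)).symm
      ((fderiv ℝ H w).comp (ContinuousLinearMap.inl ℝ (En n) (En n)))) := dist_neg_neg _ _
    rw [e]
    refine h6.trans ?_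
    apply mul_le_mul_of_nonneg_right _ hd
    apply mul_le_mul_of_nonneg_left _ hK0
    linarith

theorem KRV_nrm {n : ℕ} {r0 : ℝ} (𝒢 : NChart n r0) (z : PS n) :
    nrm2 𝒢 (z.1, -z.2) = nrm2 𝒢 z := by
  unfold nrm2
  show inner ℝ (𝒢.G z.1 (-z.2)) (-z.2) = inner ℝ (𝒢.G z.1 z.2) z.2
  rw [map_neg, inner_neg_neg]

/-- the vector field at the reversed point -/
theorem KRV_hvf {n : ℕ} {r0 r1 : ℝ} {𝒢 : NChart n r0} {H : PS n → ℝ} {Φ : ℝ → PS n → PS n}
    (hG : IsGFlow 𝒢 r1 H Φ) (y : PS n) (hy : ‖y.1‖ < r1) (hy2 : nrm2 𝒢 y < 2) :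
    hvf H (y.1, -y.2) = (-(hvf H y).1, (hvf H y).2) := by
  -- `H` is even near `y`
  have hcont : ContinuousAt (nrm2 𝒢) y := by
    have h1 : ContinuousAt 𝒢.G y.1 :=
      (𝒢.smooth.continuousOn).continuousAt (Metric.isOpen_ball.mem_nhds
        (mem_ball_zero_iff.2 (hy.trans hG.r1lt)))
    have h2 : ContinuousAt (fun z : PS n => 𝒢.G z.1) y := h1.comp continuousAt_fst
    have h3 : ContinuousAt (fun z : PS n => 𝒢.G z.1 z.2) y := h2.clm_apply continuousAt_snd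
    exact h3.inner continuousAt_snd
  have hev : H ∘ (KRV_i n) =ᶠ[𝓝 y] H := by
    have h1 : ∀ᶠ z : PS n in 𝓝 y, ‖z.1‖ < r1 :=
      (continuousAt_fst.norm).eventually_lt continuousAt_const hy
    have h2 : ∀ᶠ z : PS n in 𝓝 y, nrm2 𝒢 z < 2 := hcont.eventually_lt continuousAt_const hy2
    filter_upwards [h1, h2] with z hz1 hz2
    show H (z.1, -z.2) = H z
    rw [hG.eqH (z.1, -z.2) hz1 (by rw [KRV_nrm]; exact hz2), hG.eqH z hz1 hz2]
    unfold ham
    rw [KRV_nrm]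
  have hd : fderiv ℝ H y = (fderiv ℝ H (y.1, -y.2)).comp (KRV_i n) := by
    rw [← hev.fderiv_eq]
    have h1 : HasFDerivAt H (fderiv ℝ H (KRV_i n y)) (KRV_i n y) :=
      (hG.smoothH.differentiable (by simp)).differentiableAt.hasFDerivAt
    exact (h1.comp y (KRV_i n).hasFDerivAt).fderiv
  have e1 : (fderiv ℝ H y).comp (ContinuousLinearMap.inr ℝ (En n) (En n)) =
      -((fderiv ℝ H (y.1, -y.2)).comp (ContinuousLinearMap.inr ℝ (En n) (En n))) := by
    ext v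
    rw [hd]
    show fderiv ℝ H (y.1, -y.2) ((0 : En n), -v) = -(fderiv ℝ H (y.1, -y.2) ((0 : En n), v))
    rw [← map_neg]
    congr 1
    show ((0 : En n), -v) = (-(0 : En n), -v)
    rw [neg_zero]
  have e2 : (fderiv ℝ H y).comp (ContinuousLinearMap.inl ℝ (En n) (En n)) =
      (fderiv ℝ H (y.1, -y.2)).comp (ContinuousLinearMap.inl ℝ (En n) (En n)) := by
    ext v
    rw [hd]
    show fderiv ℝ H (y.1, -y.2) (v, -(0 : En n)) = fderiv ℝ H (y.1, -y.2) (v, (0 : En n))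
    rw [neg_zero]
  unfold hvf
  rw [e1, e2, map_neg, neg_neg]

theorem KRV (h1 : HVA_stmt) (h2 : NRG_stmt) (h3 : IWN_stmt) : KRV_stmt := by
  have _ := h1
  have _ := h2
  intro n r0 𝒢 L R e r1 H Φ hS z hz u hu
  have hG := hS.fl
  obtain ⟨K, hK⟩ := KRV_lip H hG.smoothH hG.cptH
  obtain ⟨α, β, hα, hβ, hst, -, -, -, -, hin⟩ := h3 n r0 𝒢 L R e r1 H Φ hS z hz
  have hz1 : nrm2 𝒢 z < 1 := by
    by_contra h
    push Not at h
    have h4 : 1 ≤ sp 𝒢 z := by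
      unfold sp
      rw [Real.le_sqrt' one_pos]
      simpa using h
    exact absurd hz.2.2 (not_lt.2 h4)
  have hreg : ∀ τ ∈ Ioo α β, ‖(Φ τ z).1‖ < r1 ∧ nrm2 𝒢 (Φ τ z) < 2 := by
    intro τ hτ
    obtain ⟨h4, h5⟩ := hin τ ⟨hτ.1.le, hτ.2.le⟩
    refine ⟨lt_of_le_of_lt h4 hS.Rr, ?_⟩
    rw [h5]
    linarith
  have hc1 : ∀ τ ∈ Ioo α β, HasDerivAt (fun τ => KRV_i n (Φ τ z)) (-(hvf H (KRV_i n (Φ τ z)))) τ := by
    intro τ hτ
    have h4 := (KRV_i n).hasFDerivAt.comp_hasDerivAt τ (hG.ode z τ)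
    obtain ⟨h5, h6⟩ := hreg τ hτ
    have h7 := KRV_hvf hG (Φ τ z) h5 h6
    have h8 : -(hvf H (KRV_i n (Φ τ z))) = KRV_i n (hvf H (Φ τ z)) := by
      rw [KRV_i_apply, KRV_i_apply, h7]
      show (- -(hvf H (Φ τ z)).1, -(hvf H (Φ τ z)).2) = _
      rw [neg_neg]
    rw [h8]
    exact h4
  have hc2 : ∀ τ, HasDerivAt (fun τ => Φ (-τ) (KRV_i n z)) (-(hvf H (Φ (-τ) (KRV_i n z)))) τ := by
    intro τ
    have h4 := (hG.ode (KRV_i n z) (-τ)).scomp τ (hasDerivAt_neg τ)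
    rw [neg_smul, one_smul] at h4
    exact h4
  have hun : EqOn (fun τ => KRV_i n (Φ τ z)) (fun τ => Φ (-τ) (KRV_i n z)) (Ioo α β) :=
    ODE_solution_unique_of_mem_Ioo (v := fun _ y => -(hvf H y))
      (s := fun _ => (univ : Set (PS n))) (K := K) (a := α) (b := β) (t₀ := 0)
      (fun t _ => (hK.neg).lipschitzOnWith) ⟨hα, hβ⟩
      (fun τ hτ => ⟨hc1 τ hτ, mem_univ _⟩) (fun τ _ => ⟨hc2 τ, mem_univ _⟩)
      (by
        show KRV_i n (Φ 0 z) = Φ (-0) (KRV_i n z)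
        rw [neg_zero, hG.zero, hG.zero])
  have key : ∀ v, Stay Φ R z v → Φ (-v) (z.1, -z.2) = ((Φ v z).1, -(Φ v z).2) := by
    intro v hv
    exact (hun ((hst v).1 hv)).symm
  have hsub : ∀ v, Stay Φ R z v → ∀ s ∈ uIcc 0 v, Stay Φ R z s := by
    intro v hv s hs t ht
    exact hv t ((uIcc_subset_uIcc_left hs) ht)
  refine ⟨⟨hz.1, ?_, ?_⟩, ?_, key u hu⟩
  · show e < sp 𝒢 (z.1, -z.2)
    unfold sp
    rw [KRV_nrm]
    exact hz.2.1
  · show sp 𝒢 (z.1, -z.2) < 1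
    unfold sp
    rw [KRV_nrm]
    exact hz.2.2
  · intro s hs
    have hs' : -s ∈ uIcc 0 u := by
      rw [mem_uIcc] at hs ⊢
      rcases hs with ⟨h4, h5⟩ | ⟨h4, h5⟩
      · right
        constructor <;> linarith
      · left
        constructor <;> linarith
    have h4 := key (-s) (hsub u hu _ hs')
    rw [neg_neg] at h4
    rw [h4]
    exact hu (-s) hs'

end Pool.Agent.CRO
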